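import Pool.Agent.H93.CP.Targets

/-!
# Row PMK of the board cpt_modules
-/

set_option autoImplicit false

open Set Filter Topology

namespace Pool.Agent.H40.CPT.PMK

open Pool.Agent.H93.CP

/-- an increasing sequence of words is monotone -/
lemma mono {E : Type} {ζ : ℕ → List E} (h : ∀ n, ζ n <+: ζ (n + 1)) (m : ℕ) :
    ∀ k, ζ m <+: ζ (m + k)
  | 0 => List.prefix_rfl
  | k + 1 => (mono h m k).trans (h (m + k))

lemma mono' {E : Type} {ζ : ℕ → List E} (h : ∀ n, ζ n <+: ζ (n + 1)) {m n : ℕ}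
    (hmn : m ≤ n) : ζ m <+: ζ n := by
  obtain ⟨k, rfl⟩ := Nat.exists_eq_add_of_le hmn
  exact mono h m k

/-- initial words of legal words are legal -/
lemma leg_prefix {G : Type} (S : Gr G) : ∀ (u w : List S.E) (a : S.O), S.Leg a (u ++ w) →
    S.Leg a u
  | [], _, _, _ => trivial
  | _ :: u, w, _, h => ⟨h.1, leg_prefix S u w _ h.2⟩

theorem pf_PMK (hPWD : T_PWD) : T_PMK := by
  classical
  intro G S ζ hleg hinc hlen
  have hP : S.IsPath (fun u => decide (∃ n, u <+: ζ n)) := by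
    refine ⟨?_, ?_, ?_, ?_⟩
    · simp
    · intro u w huw hw
      have hw' : ∃ n, w <+: ζ n := of_decide_eq_true hw
      obtain ⟨n, hn⟩ := hw'
      exact decide_eq_true ⟨n, huw.trans hn⟩
    · intro w hw
      have hw' : ∃ n, w <+: ζ n := of_decide_eq_true hw
      obtain ⟨n, t, ht⟩ := hw'
      have h1 := hleg n
      rw [← ht] at h1
      exact leg_prefix S w t _ h1
    · intro u w hu hw
      have hu' : ∃ n, u <+: ζ n := of_decide_eq_true hu
      have hw' : ∃ n, w <+: ζ n := of_decide_eq_true hw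
      obtain ⟨m, hm⟩ := hu'
      obtain ⟨n, hn⟩ := hw'
      have h1 : u <+: ζ (max m n) := hm.trans (mono' hinc (le_max_left m n))
      have h2 : w <+: ζ (max m n) := hn.trans (mono' hinc (le_max_right m n))
      exact List.prefix_or_prefix_of_prefix h1 h2
  have hmem : ∀ u, S.Mem u (⟨_, hP⟩ : S.Path) ↔ ∃ n, u <+: ζ n := fun u => decide_eq_true_iff
  refine ⟨⟨_, hP⟩, ?_, ?_⟩
  · obtain ⟨-, -, h3, -⟩ := hPWD G S
    rw [h3]
    intro n
    refine ⟨(ζ n).take n, ?_, ?_⟩
    · rw [hmem]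
      exact ⟨n, List.take_prefix n (ζ n)⟩
    · rw [List.length_take]
      exact min_eq_left (hlen n)
  · intro n
    rw [hmem]
    exact ⟨n, List.prefix_rfl⟩

end Pool.Agent.H40.CPT.PMK
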